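import Pool.Agent.H73.CBD.Stmts

/-! Row NDR of board cbd: the derivative of `N`. -/

set_option autoImplicit false

namespace Pool.CBD

theorem NDR_aux (i : Fin 2) (z : V) :
    HasFDerivAt (fun z : V => ‖z i‖ ^ 2)
      (2 • (innerSL ℝ (z i)).comp (ContinuousLinearMap.proj (R := ℝ) (φ := fun _ : Fin 2 => ℂ) i))
      z := by
  have h1 : HasFDerivAt (fun z : V => z i)
      (ContinuousLinearMap.proj (R := ℝ) (φ := fun _ : Fin 2 => ℂ) i) z :=
    (ContinuousLinearMap.proj (R := ℝ) (φ := fun _ : Fin 2 => ℂ) i).hasFDerivAt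
  exact h1.norm_sq

theorem NDR_thm : NDRStmt := by
  constructor
  · unfold N
    exact ((contDiff_apply ℝ ℂ (0 : Fin 2)).norm_sq ℝ).add
      ((contDiff_apply ℝ ℂ (1 : Fin 2)).norm_sq ℝ)
  · intro z v
    have h := (NDR_aux 0 z).add (NDR_aux 1 z)
    have h' : fderiv ℝ N z = _ := h.fderiv
    rw [h']
    simp only [ContinuousLinearMap.add_apply, ContinuousLinearMap.smul_apply,
      ContinuousLinearMap.comp_apply, ContinuousLinearMap.proj_apply, innerSL_apply_apply,
      Complex.inner, Complex.add_re, nsmul_eq_mul, Nat.cast_ofNat]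
    ring_nf

end Pool.CBD
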